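import Pool.Agent.Lib.MP_72b724_gt.Interfaces

/-!
# Module RLEN: Riemannian manifolds are length spaces
-/

open scoped Manifold ContDiff ENNReal Topology
open MeasureTheory Set Filter Bundle Manifold

namespace Pool.Agent.Lib.MP_72b724_gt.H15

open Pool.Agent.Lib.MP_72b724_gt

theorem rlen : RLenStatement := by
  intro n M _ _ _ _ _ _ _ _ x y ε hε
  have h1 : riemannianEDist (𝓡 n) x y < ENNReal.ofReal (dist x y + ε) := by
    rw [← IsRiemannianManifold.out x y, edist_dist]
    exact (ENNReal.ofReal_lt_ofReal_iff (by positivity)).2 (by linarith)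
  obtain ⟨γ, hx, hy, hs, hl⟩ := exists_lt_of_riemannianEDist_lt h1
  let g : Path x y :=
    { toFun := fun t => γ t
      continuous_toFun := hs.continuousOn.comp_continuous continuous_subtype_val fun t => t.2
      source' := hx
      target' := hy }
  refine ⟨g, le_trans ?_ hl.le⟩
  refine iSup_le fun p => ?_
  obtain ⟨N, u, hu, -⟩ := p
  have hstep : ∀ i : ℕ, edist (g (u (i + 1))) (g (u i)) ≤
      pathELength (𝓡 n) γ (u i : ℝ) (u (i + 1) : ℝ) := by
    intro i
    rw [edist_comm, IsRiemannianManifold.out (I := 𝓡 n)]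
    refine riemannianEDist_le_pathELength (hs.mono ?_) rfl rfl (hu (Nat.le_succ i))
    exact Icc_subset_Icc (u i).2.1 (u (i + 1)).2.2
  have hsum : ∀ K : ℕ, ∑ i ∈ Finset.range K, pathELength (𝓡 n) γ (u i : ℝ) (u (i + 1) : ℝ) =
      pathELength (𝓡 n) γ (u 0 : ℝ) (u K : ℝ) := by
    intro K
    induction K with
    | zero => simp
    | succ K ih =>
      rw [Finset.sum_range_succ, ih]
      exact pathELength_add (hu (Nat.zero_le K)) (hu (Nat.le_succ K))
  calc ∑ i ∈ Finset.range N, edist (g (u (i + 1))) (g (u i))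
      ≤ ∑ i ∈ Finset.range N, pathELength (𝓡 n) γ (u i : ℝ) (u (i + 1) : ℝ) :=
        Finset.sum_le_sum fun i _ => hstep i
    _ = pathELength (𝓡 n) γ (u 0 : ℝ) (u N : ℝ) := hsum N
    _ ≤ pathELength (𝓡 n) γ 0 1 := pathELength_mono (u 0).2.1 (u N).2.2

end Pool.Agent.Lib.MP_72b724_gt.H15
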